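import Pool.Agent.MP_20a840_al.H92.Odd

namespace Pool.Agent.Results.MP_20a840_al.MiddleNucleus

open Pool.Agent.MP_20a840_al.H92

/-- Every automorphic loop of order `p ^ k` (`p` prime, `k ≥ 1`) has a non-identity element in its
middle nucleus. -/
theorem result (Q : Type*) [Mul Q] [One Q]
    (one_mul : ∀ x : Q, 1 * x = x) (mul_one : ∀ x : Q, x * 1 = x)
    (solve_left : ∀ a b : Q, ∃! x, a * x = b) (solve_right : ∀ a b : Q, ∃! y, y * a = b)
    (automorphic : ∀ g ∈ Subgroup.closure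
        {f : Equiv.Perm Q | (∃ x, ∀ y, f y = x * y) ∨ (∃ x, ∀ y, f y = y * x)},
      g 1 = 1 → ∀ x y, g (x * y) = g x * g y)
    (p k : ℕ) (hp : p.Prime) (hk : 1 ≤ k) (hcard : Nat.card Q = p ^ k) :
    ∃ a : Q, a ≠ 1 ∧ ∀ x y : Q, (x * a) * y = x * (a * y) := by
  have bL : ∀ x : Q, Function.Bijective (fun y => x * y) := fun x =>
    (Function.bijective_iff_existsUnique _).mpr (solve_left x)
  have bR : ∀ x : Q, Function.Bijective (fun y => y * x) := fun x =>
    (Function.bijective_iff_existsUnique _).mpr (solve_right x)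
  let L : Q → Equiv.Perm Q := fun x => Equiv.ofBijective _ (bL x)
  let R : Q → Equiv.Perm Q := fun x => Equiv.ofBijective _ (bR x)
  have hL : ∀ x y, L x y = x * y := fun _ _ => rfl
  have hR : ∀ x y, R x y = y * x := fun _ _ => rfl
  set G := Subgroup.closure
    {f : Equiv.Perm Q | (∃ x, ∀ y, f y = x * y) ∨ (∃ x, ∀ y, f y = y * x)} with hG
  have hLG : ∀ x, L x ∈ G := fun x => Subgroup.subset_closure (Or.inl ⟨x, hL x⟩)
  have hRG : ∀ x, R x ∈ G := fun x => Subgroup.subset_closure (Or.inr ⟨x, hR x⟩)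
  have hL1 : ∀ x, (L x)⁻¹ x = 1 := fun x => Equiv.Perm.inv_eq_iff_eq.mpr (mul_one x).symm
  have hL2 : ∀ x y, x * (L x)⁻¹ y = y := fun x y => (L x).apply_symm_apply y
  have hL3 : ∀ x, (L 1)⁻¹ x = x := fun x => Equiv.Perm.inv_eq_iff_eq.mpr (one_mul x).symm
  let t : Q → Q → Q → Q := fun u v w => u * ((L u)⁻¹ v * (L u)⁻¹ w)
  have key : ∀ g ∈ G, ∀ u v w, g (t u v w) = t (g u) (g v) (g w) := by
    intro g hg u v w
    have h1 : (L (g u))⁻¹ * g * L u ∈ G := G.mul_mem (G.mul_mem (G.inv_mem (hLG _)) hg) (hLG _)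
    have h2 := automorphic _ h1 (by
      simp only [Equiv.Perm.mul_apply, hL, mul_one, hL1]) ((L u)⁻¹ v) ((L u)⁻¹ w)
    simp only [Equiv.Perm.mul_apply, hL, hL2] at h2
    change g (u * _) = g u * _
    rw [← h2, hL2]
  have el : ∀ a b z, t a b z = (L a * L ((L a)⁻¹ b) * (L a)⁻¹) z := fun _ _ _ => rfl
  have er : ∀ a c z, t a z c = (L a * R ((L a)⁻¹ c) * (L a)⁻¹) z := fun _ _ _ => rfl
  let _ : Heap Q :=
    { t := t
      t112 := fun u w => by
        change u * _ = w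
        rw [hL1, one_mul, hL2]
      t121 := fun u v => by
        change u * _ = v
        rw [hL1, mul_one, hL2]
      bijL := fun u v => (L u * L ((L u)⁻¹ v) * (L u)⁻¹).bijective
      bijR := fun u w => (L u * R ((L u)⁻¹ w) * (L u)⁻¹).bijective
      sdL := fun a b u v w =>
        key _ (G.mul_mem (G.mul_mem (hLG a) (hLG _)) (G.inv_mem (hLG a))) u v w
      sdR := fun a c u v w =>
        key _ (G.mul_mem (G.mul_mem (hLG a) (hRG _)) (G.inv_mem (hLG a))) u v w }
  obtain ⟨c, hc, hN⟩ := Heap.exists_Nmu hp hk hcard (1 : Q)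
  refine ⟨c, hc, fun x y => ?_⟩
  have h : t 1 (t 1 x c) y = t 1 x (t 1 c y) := hN x y
  simpa only [t, hL3, one_mul] using h

end Pool.Agent.Results.MP_20a840_al.MiddleNucleus
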